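import Pool.Agent.Helper20.Mono.GoalsH

/-!
MP_aa7fc1_ag, packet H1: the relation between the Denef-Loeser expression and `W`.
-/

namespace Mono

open Finset

variable {n : ℕ}

theorem h1_sat_bot {B : Set (Fin n → ℤ)} (h : AddSubgroup.closure B = ⊥) : sat B = ⊥ := by
  rw [eq_bot_iff]
  rintro x ⟨k, hk, hx⟩
  rw [h, AddSubgroup.mem_bot] at hx
  rw [AddSubgroup.mem_bot]
  rcases smul_eq_zero.1 hx with h1 | h1
  · exact absurd h1 hk
  · exact h1

theorem h1_idx_bot {B : Set (Fin n → ℤ)} (h : AddSubgroup.closure B = ⊥) : idx B = 1 := by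
  unfold idx
  rw [h1_sat_bot h, h]
  simp

theorem h1_idx_empty : idx (∅ : Set (Fin n → ℤ)) = 1 := h1_idx_bot AddSubgroup.closure_empty

theorem h1_vol_empty : vol (∅ : Finset (Fin n → ℤ)) = 1 := by
  unfold vol
  apply h1_idx_bot
  rw [eq_bot_iff, AddSubgroup.closure_le]
  rintro x ⟨u, hu, -⟩
  exact absurd hu (Finset.notMem_empty u)

theorem h1_vol_singleton (p : Fin n → ℤ) : vol {p} = 1 := by
  unfold vol
  apply h1_idx_bot
  rw [eq_bot_iff, AddSubgroup.closure_le]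
  rintro x ⟨u, hu, v, hv, rfl⟩
  rw [Finset.mem_singleton] at hu hv
  subst hu hv
  simp

theorem h1_cDL {s : ℝ} (hs : s ≠ -1) {k : ℕ} (hk : 1 ≤ k) :
    cDL (k - 1) s = -(s / (s + 1)) * (-1) ^ k + (if k = 1 then 1 / (s + 1) else 0) := by
  have h1 : s + 1 ≠ 0 := fun h => hs (by linarith)
  unfold cDL
  by_cases h : k = 1
  · subst h
    simp only [Nat.sub_self, if_true]
    field_simp
  · rw [if_neg (by omega), if_neg h]
    obtain ⟨m, rfl⟩ : ∃ m, k = m + 1 := ⟨k - 1, by omega⟩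
    simp only [Nat.add_sub_cancel]
    rw [pow_succ]
    ring

/-- the computation inside one maximal cone -/
theorem h1_cone {s : ℝ} (hs : s ≠ -1) (E F : Finset (Fin n → ℤ)) (hE : E ⊆ F)
    (c : (Fin n → ℤ) → ℝ) (hc : ∀ u ∈ F, c u ≠ 0) :
    ∑ τ ∈ E.powerset.filter (fun τ => τ.Nonempty),
      cDL (τ.card - 1) s * ((vol τ : ℝ) ^ 2 / ∏ u ∈ F \ τ, c u) =
    (1 / (s + 1)) * ((s + ∑ u ∈ E, c u) / ∏ u ∈ F, c u) -
      (s / (s + 1)) * ∑ τ ∈ E.powerset, (-1) ^ τ.card * (vol τ : ℝ) ^ 2 / ∏ u ∈ F \ τ, c u := by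
  classical
  have h1 : s + 1 ≠ 0 := fun h => hs (by linarith)
  have hP : ∏ u ∈ F, c u ≠ 0 := Finset.prod_ne_zero_iff.2 hc
  have hsplit : ∑ τ ∈ E.powerset.filter (fun τ => τ.Nonempty),
      cDL (τ.card - 1) s * ((vol τ : ℝ) ^ 2 / ∏ u ∈ F \ τ, c u) =
      ∑ τ ∈ E.powerset.filter (fun τ => τ.Nonempty),
        (-(s / (s + 1)) * ((-1) ^ τ.card * (vol τ : ℝ) ^ 2 / ∏ u ∈ F \ τ, c u)) +
      ∑ τ ∈ E.powerset.filter (fun τ => τ.Nonempty),
        (if τ.card = 1 then 1 / (s + 1) else 0) * ((vol τ : ℝ) ^ 2 / ∏ u ∈ F \ τ, c u) := by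
    rw [← Finset.sum_add_distrib]
    refine Finset.sum_congr rfl fun τ hτ => ?_
    rw [Finset.mem_filter] at hτ
    rw [h1_cDL hs (Finset.card_pos.2 hτ.2)]
    ring
  have hA : ∑ τ ∈ E.powerset.filter (fun τ => τ.Nonempty),
        (-(s / (s + 1)) * ((-1) ^ τ.card * (vol τ : ℝ) ^ 2 / ∏ u ∈ F \ τ, c u)) =
      -(s / (s + 1)) * ((∑ τ ∈ E.powerset, (-1) ^ τ.card * (vol τ : ℝ) ^ 2 / ∏ u ∈ F \ τ, c u)
        - 1 / ∏ u ∈ F, c u) := by
    rw [← Finset.mul_sum]
    congr 1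
    have h2 : E.powerset.filter (fun τ => τ.Nonempty) = E.powerset.erase ∅ := by
      ext τ
      simp only [Finset.mem_filter, Finset.mem_erase, Finset.nonempty_iff_ne_empty]
      tauto
    rw [h2, ← Finset.sum_erase_add E.powerset _ (Finset.empty_mem_powerset E)]
    simp [h1_vol_empty]
  have hB : ∑ τ ∈ E.powerset.filter (fun τ => τ.Nonempty),
        (if τ.card = 1 then 1 / (s + 1) else 0) * ((vol τ : ℝ) ^ 2 / ∏ u ∈ F \ τ, c u) =
      1 / (s + 1) * ((∑ u ∈ E, c u) / ∏ u ∈ F, c u) := by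
    have h3 : ∑ τ ∈ E.powerset.filter (fun τ => τ.Nonempty),
        (if τ.card = 1 then 1 / (s + 1) else 0) * ((vol τ : ℝ) ^ 2 / ∏ u ∈ F \ τ, c u) =
        ∑ τ ∈ E.image (fun u => ({u} : Finset (Fin n → ℤ))),
          (1 / (s + 1)) * ((vol τ : ℝ) ^ 2 / ∏ u ∈ F \ τ, c u) := by
      have h3a : ∑ τ ∈ E.image (fun u => ({u} : Finset (Fin n → ℤ))),
          (if τ.card = 1 then 1 / (s + 1) else 0) * ((vol τ : ℝ) ^ 2 / ∏ u ∈ F \ τ, c u) =
          ∑ τ ∈ E.powerset.filter (fun τ => τ.Nonempty),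
          (if τ.card = 1 then 1 / (s + 1) else 0) * ((vol τ : ℝ) ^ 2 / ∏ u ∈ F \ τ, c u) := by
        apply Finset.sum_subset
        · intro τ hτ
          rw [Finset.mem_image] at hτ
          obtain ⟨u, hu, rfl⟩ := hτ
          rw [Finset.mem_filter, Finset.mem_powerset]
          exact ⟨Finset.singleton_subset_iff.2 hu, Finset.singleton_nonempty u⟩
        · intro τ hτ hτ'
          rw [Finset.mem_filter, Finset.mem_powerset] at hτ
          rw [if_neg, zero_mul]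
          intro h4
          rw [Finset.card_eq_one] at h4
          obtain ⟨u, rfl⟩ := h4
          apply hτ'
          rw [Finset.mem_image]
          exact ⟨u, Finset.singleton_subset_iff.1 hτ.1, rfl⟩
      rw [← h3a]
      refine Finset.sum_congr rfl fun τ hτ => ?_
      rw [Finset.mem_image] at hτ
      obtain ⟨u, _, rfl⟩ := hτ
      simp
    rw [h3, Finset.sum_image (by intro a _ b _ h; exact Finset.singleton_injective h),
      ← Finset.mul_sum, Finset.sum_div]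
    congr 1
    refine Finset.sum_congr rfl fun u hu => ?_
    rw [h1_vol_singleton]
    have h5 : ∏ v ∈ F, c v = c u * ∏ v ∈ F \ {u}, c v := by
      rw [Finset.sdiff_singleton_eq_erase, Finset.mul_prod_erase F c (hE hu)]
    rw [h5]
    have h6 := hc u (hE hu)
    have h7 : ∏ v ∈ F \ {u}, c v ≠ 0 := by
      intro h
      apply hP
      rw [h5, h, mul_zero]
    field_simp
    simp
  rw [hsplit, hA, hB]
  field_simp
  ring

theorem zwIdentity (hP : Primal) (hK : KFormula) : ZWIdentity := by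
  classical
  intro n A Z Φ T hn hTri hAd w hw s hs h1 h2 h3
  obtain ⟨hAne, hA0, hA00, hdis, hvert, hNew, hNice⟩ := hTri
  have hvZ : Φ.vert \ Z = A := by
    rw [hvert, Finset.union_sdiff_right]
    exact Finset.sdiff_eq_self_of_disjoint hdis
  have hs1 : s + 1 ≠ 0 := fun h => hs (by linarith)
  have hmem : ∀ F ∈ Φ.mx, ∀ τ : Finset (Fin n → ℤ), τ ⊆ F \ Z ↔ (τ ⊆ A ∧ τ ⊆ F) := by
    intro F hF τ
    constructor
    · intro h
      refine ⟨fun u hu => ?_, fun u hu => (Finset.mem_sdiff.1 (h hu)).1⟩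
      rw [← hvZ, Finset.mem_sdiff]
      exact ⟨Φ.mx_sub F hF (Finset.mem_sdiff.1 (h hu)).1, (Finset.mem_sdiff.1 (h hu)).2⟩
    · rintro ⟨h4, h5⟩ u hu
      rw [Finset.mem_sdiff]
      exact ⟨h5 hu, fun hz => (Finset.disjoint_left.1 hdis (h4 hu)) hz⟩
  -- the primal formula
  have hstep1 : ∀ τ ∈ Φ.faces.filter (fun τ => τ.Nonempty ∧ τ ⊆ A),
      cDL (τ.card - 1) s * (vol τ : ℝ) * Jsum A Z T τ s w =
      ∑ F ∈ Φ.mx.filter (fun F => τ ⊆ F), (1 / ((idx (F : Set (Fin n → ℤ)) : ℝ) *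
        (s + psi Z F w))) * (cDL (τ.card - 1) s * ((vol τ : ℝ) ^ 2 / ∏ u ∈ F \ τ, crd F w u)) := by
    intro τ hτ
    rw [Finset.mem_filter] at hτ
    obtain ⟨hf, hne, hsub⟩ := hτ
    have hnz : ¬ τ ⊆ Z := by
      intro h
      obtain ⟨u, hu⟩ := hne
      exact Finset.disjoint_left.1 hdis (hsub hu) (h hu)
    have hJ := hP n Φ T Z hNew (by rw [hvZ]; exact hAd) w hw s h1 (by rw [hvZ]; exact h2) h3 τ
      ((Φ.mem_faces).1 hf) hnz
    rw [hvZ] at hJ
    have hτZ : τ \ Z = τ := by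
      apply Finset.sdiff_eq_self_of_disjoint
      exact Finset.disjoint_of_subset_left hsub hdis
    have hvol : volZ Z τ = vol τ := by
      unfold volZ vol
      rw [hτZ]
      congr 1
      ext x
      simp only [Set.mem_union, Set.mem_ofPred_eq]
      constructor
      · rintro (h | ⟨h4, h5⟩)
        · exact h
        · exact absurd h5 (Finset.disjoint_left.1 hdis (hsub h4))
      · intro h
        exact Or.inl h
    rw [hJ, hvol]
    unfold Fan.Rsum
    rw [Finset.mul_sum, Finset.mul_sum]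
    refine Finset.sum_congr rfl fun F _ => ?_
    rw [div_mul_eq_div_div, div_eq_mul_one_div (1 / _) (∏ u ∈ F \ τ, crd F w u)]
    rw [div_eq_mul_one_div ((vol τ : ℝ) ^ 2)]
    ring
  rw [Finset.sum_congr rfl hstep1]
  rw [Finset.sum_comm' (t' := Φ.mx)
    (s' := fun F => (F \ Z).powerset.filter (fun τ => τ.Nonempty))]
  swap
  · intro τ F
    simp only [Finset.mem_filter, Finset.mem_powerset, Φ.mem_faces]
    constructor
    · rintro ⟨⟨_, hne, hA⟩, hF, hτF⟩
      exact ⟨⟨(hmem F hF τ).2 ⟨hA, hτF⟩, hne⟩, hF⟩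
    · rintro ⟨⟨hτ, hne⟩, hF⟩
      have := (hmem F hF τ).1 hτ
      exact ⟨⟨⟨F, hF, this.2⟩, hne, this.1⟩, hF, this.2⟩
  have hstep2 : ∀ F ∈ Φ.mx, ∑ τ ∈ (F \ Z).powerset.filter (fun τ => τ.Nonempty),
      (1 / ((idx (F : Set (Fin n → ℤ)) : ℝ) *
        (s + psi Z F w))) * (cDL (τ.card - 1) s * ((vol τ : ℝ) ^ 2 / ∏ u ∈ F \ τ, crd F w u)) =
      (1 / (s + 1)) * (1 / ((idx (F : Set (Fin n → ℤ)) : ℝ) * ∏ u ∈ F, crd F w u)) -
      (s / (s + 1)) * Wterm Z F s w := by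
    intro F hF
    rw [← Finset.mul_sum, h1_cone hs (F \ Z) F Finset.sdiff_subset (crd F w) (hw.1 F hF)]
    unfold Wterm
    have h4 := h1 F hF
    have h5 : s + ∑ u ∈ F \ Z, crd F w u = s + psi Z F w := rfl
    rw [h5, mul_sub]
    congr 1
    · by_cases hD : (idx (F : Set (Fin n → ℤ)) : ℝ) = 0
      · rw [hD]; simp
      · have hPr : ∏ u ∈ F, crd F w u ≠ 0 := Finset.prod_ne_zero_iff.2 (hw.1 F hF)
        field_simp
    · ring
  rw [Finset.sum_congr rfl hstep2, Finset.sum_sub_distrib, ← Finset.mul_sum, ← Finset.mul_sum]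
  -- the K formula
  have hface : Φ.IsFace ∅ := by
    obtain ⟨F, hF, _⟩ := Φ.cover 0 (fun i => le_refl _)
    exact ⟨F, hF, Finset.empty_subset F⟩
  have hKf := hK n Φ ∅ hface w hw
  have hcs : cs (∅ : Finset (Fin n → ℤ)) = ∅ := by
    unfold cs
    rw [Finset.filter_eq_empty_iff]
    intro i _
    rintro ⟨u, hu, _⟩
    exact absurd hu (Finset.notMem_empty u)
  rw [hcs] at hKf
  simp only [Finset.card_empty, if_true, Finset.compl_empty, Finset.coe_empty, h1_idx_empty,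
    Nat.cast_one, one_mul] at hKf
  unfold Fan.Esum at hKf
  simp only [map_one, Finset.empty_subset, Finset.filter_true, Finset.sdiff_empty] at hKf
  rw [hKf]
  unfold Fan.W
  rw [Finset.prod_inv_distrib, one_div (∏ i, w i)]
  ring

end Mono
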